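import Pool.Agent.DPL.StmtsB

/-!
GEX: the correction function G.
-/

namespace Pool.Agent.DPL.H66

open Finset Polynomial Pool.Agent.DPS

theorem bb_nonneg (N K u i : ℕ) : 0 ≤ bb N K u i := by
  unfold bb
  positivity

theorem dl_anti (N K s : ℕ) : dl N K (s + 1) ≤ dl N K s := by
  unfold dl
  have h : ((N - (s + 1)).choose (N - K) : ℝ) ≤ ((N - s).choose (N - K) : ℝ) := by
    exact_mod_cast Nat.choose_le_choose (N - K) (by omega)
  exact div_le_div_of_nonneg_right h (by positivity)

theorem gex (hN : NWTStmt) (hH : HYPStmt) (hD : DIFStmt) (hA : ALTStmt) (hM : MNBStmt) :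
    GEXStmt := by
  intro N K t r lam hK hN1 hrt hlam
  have hKN : (t + 1) * K = t * K + K := by ring
  have htK : t ≤ t * K := Nat.le_mul_of_pos_right t hK
  have hNK : K ≤ N := by omega
  have htNK : t + K ≤ N := by omega
  have hpos : ∀ v, v ≤ t → (0 : ℝ) < ((N - v).choose K : ℝ) := by
    intro v hv
    exact_mod_cast Nat.choose_pos (by omega)
  obtain ⟨g, hg⟩ : ∃ g : ℕ → ℝ, g = fun s => max (lam - dl N K s) 0 := ⟨_, rfl⟩
  obtain ⟨D, hDd⟩ : ∃ D : ℕ → ℝ, D = fun v =>
      ∑ i ∈ range (v + 1), (-1 : ℝ) ^ (v - i) * (v.choose i : ℝ) * g i := ⟨_, rfl⟩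
  obtain ⟨G, hG⟩ : ∃ G : ℕ → ℝ, G = fun u =>
      ∑ v ∈ range (u + 1), (u.choose v : ℝ) *
        (((N.choose K : ℝ) / ((N - v).choose K : ℝ)) * D v) := ⟨_, rfl⟩
  have hg0 : ∀ i, 0 ≤ g i := by
    intro i
    rw [hg]
    exact le_max_right _ _
  have hgm : ∀ i, g i ≤ g (i + 1) := by
    intro i
    rw [hg]
    have := dl_anti N K i
    exact max_le_max (by linarith) le_rfl
  refine ⟨G, ?_, ?_⟩
  · intro s hs
    have e1 : ∀ u ∈ range (s + 1), (pc N K s u : ℝ) * G u =
        ∑ v ∈ range (s + 1), ((N.choose K : ℝ) / ((N - v).choose K : ℝ)) * D v *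
          ((pc N K s u * u.choose v : ℕ) : ℝ) := by
      intro u hu
      rw [mem_range] at hu
      have e2 : G u = ∑ v ∈ range (s + 1), (u.choose v : ℝ) *
          (((N.choose K : ℝ) / ((N - v).choose K : ℝ)) * D v) := by
        rw [hG]
        refine Finset.sum_subset ?_ ?_
        · intro v hv
          rw [mem_range] at hv ⊢
          omega
        · intro v _ hv
          rw [mem_range] at hv
          rw [Nat.choose_eq_zero_of_lt (by omega)]
          simp
      rw [e2, Finset.mul_sum]
      refine Finset.sum_congr rfl fun v _ => ?_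
      push_cast
      ring
    rw [Finset.sum_congr rfl e1, Finset.sum_comm]
    have e3 : ∀ v ∈ range (s + 1), ∑ u ∈ range (s + 1),
        ((N.choose K : ℝ) / ((N - v).choose K : ℝ)) * D v *
          ((pc N K s u * u.choose v : ℕ) : ℝ) =
        (N.choose K : ℝ) * ((s.choose v : ℝ) * D v) := by
      intro v hv
      rw [mem_range] at hv
      rw [← Finset.mul_sum, ← Nat.cast_sum, hH N K s v hNK (by omega) (by omega)]
      have := hpos v (by omega)
      push_cast
      field_simp
    rw [Finset.sum_congr rfl e3, ← Finset.mul_sum, hDd]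
    have e4 := hN g s
    rw [e4, hg]
  · intro u hur huK
    have hut : u ≤ t := le_trans hur hrt
    have key : G u = ∑ i ∈ range (u + 1),
        (-1 : ℝ) ^ (u - i) * ((N.choose K : ℝ) * (bb N K u i * g i)) := by
      rw [hG, hDd]
      have e1 : ∀ v ∈ range (u + 1), (u.choose v : ℝ) *
          (((N.choose K : ℝ) / ((N - v).choose K : ℝ)) *
            ∑ i ∈ range (v + 1), (-1 : ℝ) ^ (v - i) * (v.choose i : ℝ) * g i) =
          ∑ i ∈ range (v + 1), (u.choose v : ℝ) *
          (((N.choose K : ℝ) / ((N - v).choose K : ℝ)) *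
            ((-1 : ℝ) ^ (v - i) * (v.choose i : ℝ) * g i)) := by
        intro v _
        rw [Finset.mul_sum, Finset.mul_sum]
      simp only []
      rw [Finset.sum_congr rfl e1]
      have e2 : ∑ v ∈ range (u + 1), ∑ i ∈ range (v + 1), (u.choose v : ℝ) *
          (((N.choose K : ℝ) / ((N - v).choose K : ℝ)) *
            ((-1 : ℝ) ^ (v - i) * (v.choose i : ℝ) * g i)) =
          ∑ i ∈ range (u + 1), ∑ v ∈ Ico i (u + 1), (u.choose v : ℝ) *
          (((N.choose K : ℝ) / ((N - v).choose K : ℝ)) *
            ((-1 : ℝ) ^ (v - i) * (v.choose i : ℝ) * g i)) := by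
        refine Finset.sum_comm' ?_
        intro v i
        rw [mem_range, mem_range, mem_Ico, mem_range]
        omega
      rw [e2]
      refine Finset.sum_congr rfl fun i hi => ?_
      rw [mem_range] at hi
      rw [Finset.sum_Ico_eq_sum_range]
      have e5 : u + 1 - i = (u - i) + 1 := by omega
      rw [e5]
      have e6 := hD (N - i) K (u - i) (by omega)
      have e7 : ∀ w ∈ range (u - i + 1), (u.choose (i + w) : ℝ) *
          (((N.choose K : ℝ) / ((N - (i + w)).choose K : ℝ)) *
            ((-1 : ℝ) ^ (i + w - i) * ((i + w).choose i : ℝ) * g i)) =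
          ((N.choose K : ℝ) * (u.choose i : ℝ) * g i) *
            ((-1 : ℝ) ^ w * ((u - i).choose w : ℝ) / ((N - i - w).choose K : ℝ)) := by
        intro w hw
        rw [mem_range] at hw
        have e8 : (u.choose (i + w) : ℝ) * ((i + w).choose i : ℝ) =
            (u.choose i : ℝ) * ((u - i).choose w : ℝ) := by
          have := Nat.choose_mul (n := u) (k := i + w) (s := i) (by omega)
          rw [show i + w - i = w by omega] at this
          exact_mod_cast this
        rw [show i + w - i = w by omega, show N - (i + w) = N - i - w by omega]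
        calc (u.choose (i + w) : ℝ) *
          (((N.choose K : ℝ) / ((N - i - w).choose K : ℝ)) *
            ((-1 : ℝ) ^ w * ((i + w).choose i : ℝ) * g i))
            = ((u.choose (i + w) : ℝ) * ((i + w).choose i : ℝ)) *
              ((N.choose K : ℝ) * g i * (-1 : ℝ) ^ w / ((N - i - w).choose K : ℝ)) := by ring
          _ = _ := by rw [e8]; ring
      rw [Finset.sum_congr rfl e7, ← Finset.mul_sum, e6]
      unfold bb
      ring
    rw [key]
    refine (hA u (fun i => (N.choose K : ℝ) * (bb N K u i * g i)) ?_ ?_).1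
    · intro i
      exact mul_nonneg (by positivity) (mul_nonneg (bb_nonneg N K u i) (hg0 i))
    · intro i hi
      have h1 := hM N K t u i hN1 hut huK hi
      refine mul_le_mul_of_nonneg_left ?_ (by positivity)
      exact mul_le_mul h1.2 (hgm i) (hg0 i) (bb_nonneg N K u (i + 1))

/-- LEX: the majorant function. -/
theorem lex (hG : GEXStmt) (hH : HYPStmt) : LEXStmt := by
  intro N K t r lam hK hN1 hrt hlam
  have hKN : (t + 1) * K = t * K + K := by ring
  have htK : t ≤ t * K := Nat.le_mul_of_pos_right t hK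
  have hNK : K ≤ N := by omega
  obtain ⟨G, hG1, hG2⟩ := hG N K t r lam hK hN1 hrt hlam
  refine ⟨fun u => (if u = 0 then 1 else 0) - lam + G u, ?_, ?_⟩
  · intro s hs
    have hc : (0 : ℝ) < (N.choose K : ℝ) := by exact_mod_cast Nat.choose_pos hNK
    have e0 : ∑ u ∈ range (s + 1), (pc N K s u : ℝ) = (N.choose K : ℝ) := by
      have := hH N K s 0 hNK (by omega) (by omega)
      simp only [Nat.choose_zero_right, mul_one, Nat.sub_zero, one_mul] at this
      exact_mod_cast this
    have e1 : ∑ u ∈ range (s + 1), (pc N K s u : ℝ) * (if u = 0 then (1 : ℝ) else 0) =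
        (N.choose K : ℝ) * dl N K s := by
      rw [Finset.sum_eq_single 0]
      · unfold pc dl
        rw [if_pos rfl, mul_div_cancel₀ _ hc.ne']
        simp
      · intro b _ hb
        rw [if_neg hb, mul_zero]
      · intro h
        exact absurd (mem_range.mpr (by omega)) h
    have e2 : ∑ u ∈ range (s + 1), (pc N K s u : ℝ) * ((if u = 0 then (1 : ℝ) else 0) - lam + G u) =
        ∑ u ∈ range (s + 1), (pc N K s u : ℝ) * (if u = 0 then (1 : ℝ) else 0) -
          (∑ u ∈ range (s + 1), (pc N K s u : ℝ)) * lam +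
          ∑ u ∈ range (s + 1), (pc N K s u : ℝ) * G u := by
      rw [Finset.sum_mul, ← Finset.sum_sub_distrib, ← Finset.sum_add_distrib]
      refine Finset.sum_congr rfl fun u _ => ?_
      ring
    rw [e2, e1, e0, hG1 s hs]
    rcases le_total (dl N K s) lam with h | h
    · rw [max_eq_left (by linarith : (0 : ℝ) ≤ lam - dl N K s),
        max_eq_right (by linarith : dl N K s - lam ≤ 0)]
      ring
    · rw [max_eq_right (by linarith : lam - dl N K s ≤ 0),
        max_eq_left (by linarith : (0 : ℝ) ≤ dl N K s - lam)]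
      ring
  · intro u hur huK
    have := hG2 u hur huK
    show (if u = 0 then (1 : ℝ) else 0) - lam ≤ (if u = 0 then 1 else 0) - lam + G u
    linarith

end Pool.Agent.DPL.H66
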