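import Pool.Agent.DPL.StmtsB

/-!
MAJ: the majorant.
-/

namespace Pool.Agent.DPL.H66

open Finset Polynomial Pool.Agent.DPS

theorem maj : MAJStmt := by
  classical
  intro n k t r lam L hlam htk hL A hA R hR
  have hwf : wf L (ind A) R = ∑ F ∈ A, L (R \ F.1).card := by
    unfold wf ind
    rw [← Finset.sum_filter_add_sum_filter_not univ (fun F => F ∈ A)]
    have h1 : ∑ F ∈ univ.filter (fun F => F ∈ A), L (R \ F.1).card * (if F ∈ A then (1 : ℝ) else 0) =
        ∑ F ∈ A, L (R \ F.1).card := by
      have : univ.filter (fun F => F ∈ A) = A := by ext F; simp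
      rw [this]
      refine Finset.sum_congr rfl fun F hF => ?_
      rw [if_pos hF, mul_one]
    have h2 : ∑ F ∈ univ.filter (fun F => ¬ F ∈ A),
        L (R \ F.1).card * (if F ∈ A then (1 : ℝ) else 0) = 0 := by
      refine Finset.sum_eq_zero fun F hF => ?_
      rw [mem_filter] at hF
      rw [if_neg hF.2, mul_zero]
    rw [h1, h2, add_zero]
  have hdg : dg (ind A) R = ∑ F ∈ A, (if R ⊆ F.1 then (1 : ℝ) else 0) := by
    unfold dg ind
    rw [← Finset.sum_filter_add_sum_filter_not univ (fun F => F ∈ A)]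
    have h1 : ∑ F ∈ univ.filter (fun F => F ∈ A),
        (if R ⊆ F.1 then (if F ∈ A then (1 : ℝ) else 0) else 0) =
        ∑ F ∈ A, (if R ⊆ F.1 then (1 : ℝ) else 0) := by
      have : univ.filter (fun F => F ∈ A) = A := by ext F; simp
      rw [this]
      refine Finset.sum_congr rfl fun F hF => ?_
      rw [if_pos hF]
    have h2 : ∑ F ∈ univ.filter (fun F => ¬ F ∈ A),
        (if R ⊆ F.1 then (if F ∈ A then (1 : ℝ) else 0) else 0) = 0 := by
      refine Finset.sum_eq_zero fun F hF => ?_
      rw [mem_filter] at hF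
      rw [if_neg hF.2, ite_self]
    rw [h1, h2, add_zero]
  by_cases h : ∃ F0 ∈ A, R ⊆ F0.1
  · obtain ⟨F0, hF0, hRF⟩ := h
    have key : ∀ F ∈ A, (if R ⊆ F.1 then (1 : ℝ) else 0) - lam ≤ L (R \ F.1).card := by
      intro F hF
      have h1 : (R \ F.1).card ≤ r := hR ▸ Finset.card_le_card Finset.sdiff_subset
      have h2 : (R \ F.1).card ≤ k - t := by
        have e1 : (R \ F.1).card ≤ (F0.1 \ F.1).card :=
          Finset.card_le_card (Finset.sdiff_subset_sdiff hRF (Finset.Subset.refl _))
        have e2 : (F0.1 \ F.1).card + (F0.1 ∩ F.1).card = F0.1.card :=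
          Finset.card_sdiff_add_card_inter F0.1 F.1
        have e3 := hA F0 hF0 F hF
        have e4 := F0.2
        omega
      have h3 := hL _ h1 h2
      have h4 : ((R \ F.1).card = 0) ↔ R ⊆ F.1 := by
        rw [Finset.card_eq_zero, Finset.sdiff_eq_empty_iff_subset]
      by_cases h5 : R ⊆ F.1
      · rw [if_pos (h4.2 h5)] at h3
        rw [if_pos h5]
        exact h3
      · rw [if_neg (fun h6 => h5 (h4.1 h6))] at h3
        rw [if_neg h5]
        exact h3
    have hsum : dg (ind A) R - lam * (A.card : ℝ) ≤ wf L (ind A) R := by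
      rw [hwf, hdg]
      have e1 := Finset.sum_le_sum key
      rw [Finset.sum_sub_distrib, Finset.sum_const, nsmul_eq_mul] at e1
      linarith
    exact max_le (hsum.trans (le_abs_self _)) (abs_nonneg _)
  · have h0 : dg (ind A) R = 0 := by
      rw [hdg]
      refine Finset.sum_eq_zero fun F hF => ?_
      rw [if_neg (fun h1 => h ⟨F, hF, h1⟩)]
    rw [h0]
    have : (0 : ℝ) - lam * (A.card : ℝ) ≤ 0 := by
      have : 0 ≤ lam * (A.card : ℝ) := mul_nonneg hlam (Nat.cast_nonneg _)
      linarith
    rw [max_eq_right this]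
    exact abs_nonneg _

end Pool.Agent.DPL.H66
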