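import Pool.Agent.DPL.StmtsB
import Pool.Agent.Helper59_DPS.All

/-!
TSQ: truncated squares.
-/

namespace Pool.Agent.DPL.H66

open Finset Polynomial Pool.Agent.DPS

theorem tsq (hW : WFIStmt) (hL : LEXStmt) (hS : STVStmt) (hM : MAJStmt) : TSQStmt := by
  classical
  intro n k t r ht hrt htk hn μ hμ A hA T hT
  rcases Finset.eq_empty_or_nonempty A with hAe | hAe
  · have h0 : ∀ R : Finset (Fin n), dg (ind A) R = 0 := by
      intro R
      unfold dg
      refine Finset.sum_eq_zero fun F _ => ?_
      have : ind A F = 0 := by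
        unfold ind
        rw [hAe, if_neg (Finset.notMem_empty _)]
      rw [this, ite_self]
    refine Finset.sum_le_sum fun R _ => ?_
    rw [h0 R, max_eq_right (by linarith : (0 : ℝ) - μ ≤ 0)]
    rw [zero_pow (by norm_num)]
    exact sq_nonneg _
  · have hAc : (0 : ℝ) < (A.card : ℝ) := by exact_mod_cast Finset.card_pos.mpr hAe
    have h1 : (t + 1) * (k - t + 1) = (t + 1) * (k - t) + (t + 1) := by ring
    have h2 : (t + 1) * (k - t) = t * (k - t) + (k - t) := by ring
    have h3 : k - t ≤ t * (k - t) := Nat.le_mul_of_pos_left _ ht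
    have h4 : t ≤ t * (k - t) := Nat.le_mul_of_pos_right _ (by omega)
    have hlam : (0 : ℝ) ≤ μ / (A.card : ℝ) := by positivity
    obtain ⟨L, hL1, hL2⟩ := hL (n - t) (k - t) t r (μ / (A.card : ℝ)) (by omega) (by omega) hrt hlam
    have hlA : μ / (A.card : ℝ) * (A.card : ℝ) = μ := by field_simp
    have hcard := (Pool.Agent.DPS.H59.p2a' n k t 0 ht (by omega) (by omega) hn A hA T hT).1
    have e1 : ∑ R ∈ powersetCard r (univ : Finset (Fin n)), (max (dg (ind A) R - μ) 0) ^ 2 ≤
        ∑ R ∈ powersetCard r (univ : Finset (Fin n)), wf L (ind A) R ^ 2 := by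
      refine Finset.sum_le_sum fun R hR => ?_
      rw [mem_powersetCard] at hR
      have h5 := hM n k t r (μ / (A.card : ℝ)) L hlam (by omega) hL2 A hA R hR.2
      rw [hlA] at h5
      rw [← sq_abs (wf L (ind A) R)]
      exact pow_le_pow_left₀ (le_max_right _ _) h5 2
    refine le_trans e1 (le_trans (hW n k t r ht hrt htk hn L A hA T hT) ?_)
    refine Finset.sum_le_sum fun R hR => ?_
    rw [mem_powersetCard] at hR
    have hs : (R \ T).card ≤ r := hR.2 ▸ Finset.card_le_card Finset.sdiff_subset
    obtain ⟨hv1, hv2, hv3⟩ := hS n k T R (by omega) (by omega) (by omega)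
    rw [hv1 L, hT, hL1 _ hs, hv2, hT]
    rw [hv3, hT] at hcard
    have hC : (0 : ℝ) ≤ ((n - t).choose (k - t) : ℝ) := by positivity
    have e2 : ((n - t).choose (k - t) : ℝ) * max (dl (n - t) (k - t) (R \ T).card -
        μ / (A.card : ℝ)) 0 ≤
        max (((n - t).choose (k - t) : ℝ) * dl (n - t) (k - t) (R \ T).card - μ) 0 := by
      rw [mul_max_of_nonneg _ _ hC, mul_zero]
      refine max_le_max ?_ le_rfl
      have h6 : μ ≤ ((n - t).choose (k - t) : ℝ) * (μ / (A.card : ℝ)) := by
        have := mul_le_mul_of_nonneg_right hcard hlam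
        rw [mul_comm (A.card : ℝ), hlA] at this
        exact this
      rw [mul_sub]
      linarith
    exact pow_le_pow_left₀ (mul_nonneg hC (le_max_right _ _)) e2 2

end Pool.Agent.DPL.H66
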